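import Pool.Agent.W858.SG.Setup
import Pool.Agent.Y157.PS.SupN
import Pool.Agent.Y674.PS.Fun

/-! # Superelliptic twists over finitely generated fields -/

set_option autoImplicit false
set_option linter.all false

namespace Pool.Agent.Y141.PS

open IsDedekindDomain NumberField WithZero Polynomial FF Pool.Agent.W623.SecC Pool.Agent.W858.SF
open Pool.Agent.W858.SG
open Pool.Agent.Y157.PS (S_FUN FineP fineP)

/-- A valuation on a field with values in `ℤ`: if some element has value prime to `ℓ`, then the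
valuation ring is a discrete valuation ring and the element is a unit times a power of a
uniformiser with exponent prime to `ℓ`. -/
theorem exists_unif_prime {k : Type} [Field k] (w : Valuation k ℤᵐ⁰) (a : k) (ℓ m : ℤ)
    (hm : ¬ ℓ ∣ m) (ha : w a = exp m) :
    IsDiscreteValuationRing w.valuationSubring ∧
    ∃ (ϖ t : w.valuationSubring) (n : ℤ), Irreducible ϖ ∧ IsUnit t ∧ ¬ ℓ ∣ n ∧
      a = (t : k) * (ϖ : k) ^ n := by
  classical
  have hw0 : ∀ x : k, x ≠ 0 → w x ≠ 0 := fun x hx => (Valuation.ne_zero_iff w).2 hx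
  have hexp : ∀ x : k, x ≠ 0 → w x = exp (log (w x)) := fun x hx => (exp_log (hw0 x hx)).symm
  have hunit : ∀ x : w.valuationSubring, IsUnit x ↔ w (x : k) = 1 := by
    intro x
    exact Valuation.Integers.isUnit_iff_valuation_eq_one (Valuation.valuationSubring.integers w)
  have ha0 : a ≠ 0 := by
    rintro rfl
    rw [map_zero] at ha
    exact exp_ne_zero ha.symm
  -- the minimal positive order
  have hex : ∃ n : ℕ, 0 < n ∧ ∃ x : k, w x = exp (-(n : ℤ)) := by
    have hm0 : m ≠ 0 := by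
      rintro rfl
      exact hm (dvd_zero _)
    rcases lt_or_gt_of_ne hm0 with h | h
    · refine ⟨m.natAbs, by omega, a, ?_⟩
      rw [ha]
      congr 1
      omega
    · refine ⟨m.natAbs, by omega, a⁻¹, ?_⟩
      rw [map_inv₀, ha, ← exp_neg]
      congr 1
      omega
  obtain ⟨hn0, ϖ, hϖ⟩ := Nat.find_spec hex
  set n0 := Nat.find hex with hn0def
  have hmin : ∀ n : ℕ, 0 < n → n < n0 → ∀ x : k, w x ≠ exp (-(n : ℤ)) := by
    intro n hn hlt x hx
    exact Nat.find_min hex hlt ⟨hn, x, hx⟩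
  have hϖ0 : ϖ ≠ 0 := by
    rintro rfl
    rw [map_zero] at hϖ
    exact exp_ne_zero hϖ.symm
  -- every order is a multiple of the minimal one
  have hdecomp : ∀ x : k, x ≠ 0 → ∃ q : ℤ, w x = exp (-(q * n0)) ∧ w (x * ϖ ^ (-q)) = 1 := by
    intro x hx
    obtain ⟨N, hN⟩ : ∃ N : ℤ, w x = exp (-N) := ⟨-log (w x), by rw [neg_neg]; exact hexp x hx⟩
    have hn0' : (0 : ℤ) < n0 := by exact_mod_cast hn0
    have h1 : w (x * ϖ ^ (-(N / n0))) = exp (-(N % n0)) := by
      rw [map_mul, map_zpow₀, hN, hϖ, ← exp_zsmul, ← exp_add]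
      congr 1
      rw [smul_eq_mul]
      have := Int.mul_ediv_add_emod N n0
      linarith
    have h2 : N % n0 = 0 := by
      by_contra hne
      have h3 : 0 ≤ N % n0 := Int.emod_nonneg _ hn0'.ne'
      have h4 : N % n0 < n0 := Int.emod_lt_of_pos _ hn0'
      refine hmin (N % n0).natAbs (by omega) (by omega) (x * ϖ ^ (-(N / n0))) ?_
      rw [h1]
      congr 1
      omega
    refine ⟨N / n0, ?_, ?_⟩
    · rw [hN]
      congr 1
      have := Int.mul_ediv_add_emod N n0
      rw [h2] at this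
      linarith
    · rw [h1, h2, neg_zero, exp_zero]
  have hϖA : ϖ ∈ w.valuationSubring := by
    rw [Valuation.mem_valuationSubring_iff, hϖ, ← exp_zero, exp_le_exp]
    omega
  let P : w.valuationSubring := ⟨ϖ, hϖA⟩
  have hPirr : Irreducible P := by
    refine ⟨?_, ?_⟩
    · rw [hunit]
      change ¬ w ϖ = 1
      rw [hϖ, ← exp_zero, exp_inj]
      omega
    · intro x y hxy
      have hxyk : ϖ = (x : k) * (y : k) := congrArg Subtype.val hxy
      have hx0 : (x : k) ≠ 0 := by
        intro h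
        rw [h, zero_mul] at hxyk
        exact hϖ0 hxyk
      have hy0 : (y : k) ≠ 0 := by
        intro h
        rw [h, mul_zero] at hxyk
        exact hϖ0 hxyk
      obtain ⟨q, hq, -⟩ := hdecomp _ hx0
      obtain ⟨r, hr, -⟩ := hdecomp _ hy0
      have hn0' : (0 : ℤ) < n0 := by exact_mod_cast hn0
      have hqx : 0 ≤ q := by
        have h1 := (Valuation.mem_valuationSubring_iff _ _).1 x.2
        rw [hq, ← exp_zero, exp_le_exp] at h1
        by_contra hneg
        push Not at hneg
        nlinarith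
      have hry : 0 ≤ r := by
        have h1 := (Valuation.mem_valuationSubring_iff _ _).1 y.2
        rw [hr, ← exp_zero, exp_le_exp] at h1
        by_contra hneg
        push Not at hneg
        nlinarith
      have hsum : q + r = 1 := by
        have h1 : w ϖ = w (x : k) * w (y : k) := by rw [hxyk, map_mul]
        rw [hϖ, hq, hr, ← exp_add, exp_inj] at h1
        have h2 : (q + r - 1) * (n0 : ℤ) = 0 := by linarith
        rcases mul_eq_zero.1 h2 with h3 | h3
        · omega
        · omega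
      rcases (by omega : q = 0 ∨ r = 0) with h | h
      · left
        rw [hunit, hq, h, zero_mul, neg_zero, exp_zero]
      · right
        rw [hunit, hr, h, zero_mul, neg_zero, exp_zero]
  refine ⟨IsDiscreteValuationRing.ofHasUnitMulPowIrreducibleFactorization ⟨P, hPirr, ?_⟩, ?_⟩
  · intro x hx
    have hx0 : (x : k) ≠ 0 := by
      intro h
      exact hx (Subtype.ext h)
    obtain ⟨q, hq, hq1⟩ := hdecomp _ hx0
    have hn0' : (0 : ℤ) < n0 := by exact_mod_cast hn0
    have hqx : 0 ≤ q := by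
      have h1 := (Valuation.mem_valuationSubring_iff _ _).1 x.2
      rw [hq, ← exp_zero, exp_le_exp] at h1
      by_contra hneg
      push Not at hneg
      nlinarith
    obtain ⟨n, rfl⟩ := Int.eq_ofNat_of_zero_le hqx
    let U : w.valuationSubring := ⟨(x : k) * ϖ ^ (-(n : ℤ)), le_of_eq hq1⟩
    have hU : IsUnit U := (hunit _).2 hq1
    refine ⟨n, hU.unit, ?_⟩
    apply Subtype.ext
    change ϖ ^ n * ((x : k) * ϖ ^ (-(n : ℤ))) = x
    rw [zpow_neg, zpow_natCast]
    field_simp
  · obtain ⟨q, hq, hq1⟩ := hdecomp _ ha0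
    let U : w.valuationSubring := ⟨a * ϖ ^ (-q), le_of_eq hq1⟩
    refine ⟨P, U, q, hPirr, (hunit _).2 hq1, ?_, ?_⟩
    · rw [ha, exp_inj] at hq
      rw [hq] at hm
      intro hdvd
      exact hm (dvd_neg.2 (Dvd.dvd.mul_right hdvd _))
    · change a = a * ϖ ^ (-q) * ϖ ^ q
      rw [zpow_neg, mul_assoc, inv_mul_cancel₀ (zpow_ne_zero _ hϖ0), mul_one]

theorem fineP_of_val (hFUN : S_FUN) {ℓ : ℕ} [Fact ℓ.Prime] {k E : Type} [Field k] [CharZero k]
    [Field E] (V : Valuation E ℤᵐ⁰) [Finite (IsLocalRing.ResidueField V.valuationSubring)]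
    (ψ : k →+* E) (h2 : V (ℓ : E) = 1) (g : k[X]) (gB : V.valuationSubring[X])
    (hg : gB.map (algebraMap V.valuationSubring E) = g.map ψ) (hlc : IsUnit gB.leadingCoeff)
    (hs : (gB.map (IsLocalRing.residue V.valuationSubring)).Separable) (hdvd : ℓ ∣ g.natDegree)
    (h3 : 3 ≤ g.natDegree)
    (hroot : ∀ b : V.valuationSubring, gB.eval b ∉ IsLocalRing.maximalIdeal V.valuationSubring)
    (a : k) (m : ℤ) (hm : ¬ (ℓ : ℤ) ∣ m) (ha : V (ψ a) = exp m) : FineP ℓ a g := by
  classical
  obtain ⟨hdvr, ϖ, t, n, hϖ, ht, hn, hat⟩ := exists_unif_prime (V.comap ψ) a ℓ m hm ha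
  let i : (V.comap ψ).valuationSubring →+* V.valuationSubring :=
    { toFun := fun y => ⟨ψ y, y.2⟩
      map_one' := Subtype.ext (map_one ψ)
      map_mul' := fun y z => Subtype.ext (map_mul ψ _ _)
      map_zero' := Subtype.ext (map_zero ψ)
      map_add' := fun y z => Subtype.ext (map_add ψ _ _) }
  have hcoe : ∀ y, ((i y : V.valuationSubring) : E) = ψ (y : k) := fun _ => rfl
  have hinj : Function.Injective i := by
    intro y z hyz
    apply Subtype.ext
    apply ψ.injective
    have := congrArg Subtype.val hyz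
    exact this
  have hloc : IsLocalHom i := by
    refine ⟨fun y hy => ?_⟩
    have h1 := (Valuation.Integers.isUnit_iff_valuation_eq_one
      (Valuation.valuationSubring.integers V)).1 hy
    exact (Valuation.Integers.isUnit_iff_valuation_eq_one
      (Valuation.valuationSubring.integers (V.comap ψ))).2 h1
  have hfin : Finite (IsLocalRing.ResidueField (V.comap ψ).valuationSubring) :=
    Finite.of_injective _ (IsLocalRing.ResidueField.map i).injective
  obtain ⟨f, hf⟩ : ∃ f : (V.comap ψ).valuationSubring[X],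
      f.map (algebraMap (V.comap ψ).valuationSubring k) = g := by
    have h1 : g ∈ Polynomial.lifts (algebraMap (V.comap ψ).valuationSubring k) := by
      rw [Polynomial.lifts_iff_coeff_lifts]
      intro j
      have h5 : ψ (g.coeff j) = (gB.coeff j : E) := by
        have := congrArg (fun q => q.coeff j) hg
        simp only [coeff_map] at this
        exact this.symm
      exact ⟨⟨g.coeff j, by
        change V (ψ (g.coeff j)) ≤ 1
        rw [h5]
        exact (gB.coeff j).2⟩, rfl⟩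
    obtain ⟨f, hf⟩ := (Polynomial.mem_lifts _).1 h1
    exact ⟨f, hf⟩
  have hfB : f.map i = gB := by
    apply Polynomial.map_injective (algebraMap V.valuationSubring E) Subtype.val_injective
    rw [hg, ← hf, Polynomial.map_map, Polynomial.map_map]
    rfl
  have hdeg : f.natDegree = g.natDegree := by
    rw [← hf]
    exact (natDegree_map_eq_of_injective Subtype.val_injective f).symm
  have hlcf : IsUnit f.leadingCoeff := by
    have h1 : i f.leadingCoeff = gB.leadingCoeff := by
      rw [← hfB]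
      exact (leadingCoeff_map_of_injective hinj f).symm
    rw [← h1] at hlc
    exact hloc.map_nonunit _ hlc
  have hsf : (f.map (IsLocalRing.residue (V.comap ψ).valuationSubring)).Separable := by
    rw [← Polynomial.separable_map (IsLocalRing.ResidueField.map i), Polynomial.map_map,
      IsLocalRing.ResidueField.map_comp_residue, ← Polynomial.map_map, hfB]
    exact hs
  have hrf : ∀ b, f.eval b ∉ IsLocalRing.maximalIdeal (V.comap ψ).valuationSubring := by
    intro b hb
    apply hroot (i b)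
    rw [← hfB, eval_map, eval₂_at_apply]
    intro hun
    exact hb (hloc.map_nonunit _ hun)
  have h2A : IsUnit (ℓ : (V.comap ψ).valuationSubring) := by
    refine (Valuation.Integers.isUnit_iff_valuation_eq_one
      (Valuation.valuationSubring.integers (V.comap ψ))).2 ?_
    change V (ψ (((ℓ : (V.comap ψ).valuationSubring)) : k)) = 1
    rw [← h2]
    congr 1
    rw [SubringClass.coe_natCast, map_natCast]
  have hak : a = algebraMap (V.comap ψ).valuationSubring k t *
      algebraMap (V.comap ψ).valuationSubring k ϖ ^ n := hat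
  have key := fineP hFUN h2A f hlcf hsf (by rwa [hdeg]) (by rwa [hdeg]) hrf ϖ hϖ a n hn t ht hak
  rwa [hf] at key

theorem fineP_emb (hFUN : S_FUN) {ℓ : ℕ} [Fact ℓ.Prime] {L : Type} [Field L] [NumberField L]
    (v : HeightOneSpectrum (𝓞 L)) {R : Type} [CommRing R] {k : Type} [Field k] [CharZero k]
    [Algebra R k]
    (hinjk : Function.Injective (algebraMap R k)) (P : R →+* L) (ψ : k →+* v.adicCompletion L)
    (hPint : ∀ r, v.valuation L (P r) ≤ 1)
    (hψ : ∀ r, vv v (ψ (algebraMap R k r) - algebraMap L (v.adicCompletion L) (P r)) ≤ exp (-2))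
    (h2 : (ℓ : 𝓞 L) ∉ v.asIdeal) (G : R[X]) (N : 𝓞 L) (hN : N ∉ v.asIdeal)
    (g : (𝓞 L)[X]) (hg : g.map (algebraMap (𝓞 L) L) = C (algebraMap (𝓞 L) L N) * G.map P)
    (hdeg : g.natDegree = G.natDegree) (hlc : g.leadingCoeff ∉ v.asIdeal)
    (hs : (g.map (Ideal.Quotient.mk v.asIdeal)).Separable)
    (hroot : ∀ r : 𝓞 L ⧸ v.asIdeal, (g.map (Ideal.Quotient.mk v.asIdeal)).eval r ≠ 0)
    (hdvd : ℓ ∣ G.natDegree) (h3 : 3 ≤ G.natDegree) (a : R)
    (ha : v.valuation L (P a) = exp (-1)) :
    FineP ℓ (algebraMap R k a) (G.map (algebraMap R k)) := by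
  classical
  have hfinres := finite_residue v
  have hmax : v.asIdeal.IsMaximal := v.isMaximal
  let _ := Ideal.Quotient.field v.asIdeal
  obtain ⟨θ, hθ, hθr⟩ := exists_residue_map v
  have hθinj : Function.Injective θ := θ.injective
  have hγ2 : (exp (-2) : ℤᵐ⁰) < 1 := by
    rw [← exp_zero, exp_lt_exp]
    omega
  have hPv : ∀ r, vv v (algebraMap L (v.adicCompletion L) (P r)) ≤ 1 := fun r => by
    rw [vv_algebraMap]
    exact hPint r
  have hψ1 : ∀ r, vv v (ψ (algebraMap R k r)) ≤ 1 := by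
    intro r
    have h1 : ψ (algebraMap R k r) = (ψ (algebraMap R k r) -
      algebraMap L (v.adicCompletion L) (P r)) + algebraMap L (v.adicCompletion L) (P r) := by ring
    rw [h1]
    exact (Valuation.map_add _ _ _).trans (max_le ((hψ r).trans hγ2.le) (hPv r))
  have hmapψ : (G.map (algebraMap R k)).map ψ = G.map (ψ.comp (algebraMap R k)) := by
    rw [Polynomial.map_map]
  have hinj : Function.Injective (ψ.comp (algebraMap R k)) := ψ.injective.comp hinjk
  obtain ⟨gB, hgB⟩ : ∃ gB : (vv v).valuationSubring[X],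
      gB.map (algebraMap (vv v).valuationSubring (v.adicCompletion L)) =
        G.map (ψ.comp (algebraMap R k)) := by
    have h1 : G.map (ψ.comp (algebraMap R k)) ∈
        Polynomial.lifts (algebraMap (vv v).valuationSubring (v.adicCompletion L)) := by
      rw [Polynomial.lifts_iff_coeff_lifts]
      intro j
      exact ⟨⟨(G.map (ψ.comp (algebraMap R k))).coeff j, by
        rw [coeff_map]
        exact hψ1 _⟩, rfl⟩
    obtain ⟨f, hf⟩ := (Polynomial.mem_lifts _).1 h1
    exact ⟨f, hf⟩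
  have hcoeff : ∀ j, ((gB.coeff j : (vv v).valuationSubring) : v.adicCompletion L) =
      ψ (algebraMap R k (G.coeff j)) := by
    intro j
    have := congrArg (fun q => q.coeff j) hgB
    simp only [coeff_map] at this
    exact this
  have hNint : ∀ r : 𝓞 L, vv v (algebraMap L (v.adicCompletion L) (algebraMap (𝓞 L) L r)) ≤ 1 := by
    intro r
    rw [vv_algebraMap]
    exact v.valuation_le_one r
  let NB : (vv v).valuationSubring :=
    ⟨algebraMap L (v.adicCompletion L) (algebraMap (𝓞 L) L N), hNint N⟩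
  have hNBres : IsLocalRing.residue _ NB = θ (Ideal.Quotient.mk v.asIdeal N) := by
    apply hθr
    change vv v (algebraMap L (v.adicCompletion L) (algebraMap (𝓞 L) L N) -
      algebraMap L (v.adicCompletion L) (algebraMap (𝓞 L) L N)) < 1
    rw [sub_self, map_zero]
    exact zero_lt_one
  have hres : ∀ j, IsLocalRing.residue _ (gB.coeff j) * θ (Ideal.Quotient.mk v.asIdeal N) =
      θ (Ideal.Quotient.mk v.asIdeal (g.coeff j)) := by
    intro j
    rw [← hNBres, ← map_mul]
    apply hθr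
    have h1 : algebraMap (𝓞 L) L (g.coeff j) = algebraMap (𝓞 L) L N * P (G.coeff j) := by
      have := congrArg (fun q => q.coeff j) hg
      simpa only [coeff_map, coeff_C_mul] using this
    have h2 : ((gB.coeff j * NB : (vv v).valuationSubring) : v.adicCompletion L) -
        algebraMap L (v.adicCompletion L) (algebraMap (𝓞 L) L (g.coeff j)) =
        algebraMap L (v.adicCompletion L) (algebraMap (𝓞 L) L N) * (ψ (algebraMap R k (G.coeff j)) -
          algebraMap L (v.adicCompletion L) (P (G.coeff j))) := by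
      rw [h1, map_mul]
      change ((gB.coeff j : (vv v).valuationSubring) : v.adicCompletion L) *
        algebraMap L (v.adicCompletion L) (algebraMap (𝓞 L) L N) - _ = _
      rw [hcoeff]
      ring
    rw [h2, map_mul]
    exact mul_lt_of_le_one_of_lt (hNint N) ((hψ _).trans_lt hγ2)
  have hpoly : gB.map (IsLocalRing.residue _) * C (θ (Ideal.Quotient.mk v.asIdeal N)) =
      (g.map (Ideal.Quotient.mk v.asIdeal)).map θ := by
    ext j
    rw [coeff_mul_C, coeff_map, coeff_map, coeff_map]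
    exact hres j
  have hdegk : (G.map (algebraMap R k)).natDegree = G.natDegree :=
    natDegree_map_eq_of_injective hinjk G
  have hdegB : gB.natDegree = G.natDegree := by
    rw [← natDegree_map_eq_of_injective (f := algebraMap (vv v).valuationSubring
      (v.adicCompletion L)) Subtype.val_injective gB, hgB, natDegree_map_eq_of_injective hinj G]
  have hℓ1 : ¬ (ℓ : ℤ) ∣ (-1 : ℤ) := by
    intro h
    have hℓp : ℓ.Prime := Fact.out
    have h5 := Int.natAbs_dvd_natAbs.2 h
    have h6 : ℓ ∣ 1 := by simpa using h5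
    exact hℓp.one_lt.ne' (Nat.dvd_one.1 h6)
  refine fineP_of_val hFUN (vv v) ψ ?_ (G.map (algebraMap R k)) gB ?_ ?_ ?_
    (by rwa [hdegk]) (by rwa [hdegk]) ?_ _ (-1) hℓ1 ?_
  · have h5 : (ℓ : v.adicCompletion L) =
        algebraMap L (v.adicCompletion L) (algebraMap (𝓞 L) L ℓ) := by
      rw [map_natCast, map_natCast]
    rw [h5, vv_algebraMap]
    exact (HeightOneSpectrum.valuation_eq_one_iff_notMem v).2 h2
  · rw [hgB, hmapψ]
  · have h4 : gB.leadingCoeff ∉ IsLocalRing.maximalIdeal (vv v).valuationSubring := by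
      intro h5
      have h6 := hres gB.natDegree
      have h7 : IsLocalRing.residue _ (gB.coeff gB.natDegree) = 0 :=
        (IsLocalRing.residue_eq_zero_iff _).2 h5
      rw [h7, zero_mul, hdegB, ← hdeg] at h6
      have h8 := (map_eq_zero_iff _ hθinj).1 h6.symm
      rw [Ideal.Quotient.eq_zero_iff_mem] at h8
      exact hlc h8
    by_contra h5
    exact h4 ((IsLocalRing.mem_maximalIdeal _).2 h5)
  · have h5 : ((g.map (Ideal.Quotient.mk v.asIdeal)).map θ).Separable := hs.map
    rw [← hpoly] at h5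
    exact h5.of_mul_left
  · intro b hb
    obtain ⟨r, hr⟩ := exists_int_close v b
    have h5 := hθr r b hr
    have h6 : IsLocalRing.residue (vv v).valuationSubring (gB.eval b) = 0 :=
      (IsLocalRing.residue_eq_zero_iff _).2 hb
    have h7 : ((g.map (Ideal.Quotient.mk v.asIdeal)).map θ).eval
        (θ (Ideal.Quotient.mk v.asIdeal r)) = 0 := by
      rw [← hpoly, eval_mul, ← h5, eval_map, eval₂_at_apply, h6, zero_mul]
    rw [eval_map, eval₂_at_apply] at h7
    exact hroot _ ((map_eq_zero_iff _ hθinj).1 h7)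
  · have h5 : ψ (algebraMap R k a) = (ψ (algebraMap R k a) -
      algebraMap L (v.adicCompletion L) (P a)) + algebraMap L (v.adicCompletion L) (P a) := by ring
    have h6 : vv v (ψ (algebraMap R k a) - algebraMap L (v.adicCompletion L) (P a)) <
        vv v (algebraMap L (v.adicCompletion L) (P a)) := by
      rw [vv_algebraMap, ha]
      refine (hψ a).trans_lt ?_
      rw [exp_lt_exp]
      omega
    rw [h5, Valuation.map_add_eq_of_lt_right _ h6, vv_algebraMap, ha]

theorem density_of_pointP (hFUN : S_FUN) {R k : Type} [CommRing R] [Field k] [CharZero k] [Algebra R k]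
    (hinjk : Function.Injective (algebraMap R k)) (f : k[X]) (d : R) (F : R[X])
    (hdF : C (algebraMap R k d) * f = F.map (algebraMap R k)) (hdk : algebraMap R k d ≠ 0)
    (hFf : F.natDegree = f.natDegree) (h3F : 3 ≤ F.natDegree) {L : Type} [Field L] [NumberField L] (P : R →+* L)
    (hd : P d ≠ 0) (hlc : P F.leadingCoeff ≠ 0) (hsep : (F.map P).Separable)
    (hσ : ∃ σ' : AlgebraicClosure L ≃ₐ[L] AlgebraicClosure L,
        ∀ θ : AlgebraicClosure L, aeval θ (F.map P) = 0 → σ' θ ≠ θ)
    (hemb : AE fun v : HeightOneSpectrum (𝓞 L) => (∀ r, v.valuation L (P r) ≤ 1) ∧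
      ∃ ψ : k →+* v.adicCompletion L,
        ∀ r, vv v (ψ (algebraMap R k r) - algebraMap L (v.adicCompletion L) (P r)) ≤ exp (-2))
    (hM : ∃ M : ℤ, M ≠ 0 ∧ ∀ y : 𝓞 L, ∃ r : R, (M : L) * algebraMap (𝓞 L) L y = P r)
    (ε : ℝ) (hε : 0 < ε) :
    ∃ I : Ideal R, Finite (R ⧸ I) ∧
      (Set.ncard ((Ideal.Quotient.mk I) ''
        {a : R | ¬ ∀ ℓ : ℕ, ℓ.Prime → ℓ ∣ f.natDegree → FineP ℓ (algebraMap R k a) f}) : ℝ) ≤ ε * Nat.card (R ⧸ I) := by
  classical
  obtain ⟨M, hM0, hM⟩ := hM
  obtain ⟨c, hc, hcf⟩ := IsLocalization.integerNormalization_spec (nonZeroDivisors (𝓞 L)) (F.map P)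
  set g := IsLocalization.integerNormalization (nonZeroDivisors (𝓞 L)) (F.map P) with hg
  have hc0 : c ≠ 0 := nonZeroDivisors.ne_zero hc
  have hinj : Function.Injective (algebraMap (𝓞 L) L) := IsFractionRing.injective (𝓞 L) L
  have hcK : algebraMap (𝓞 L) L c ≠ 0 := by
    rw [Ne, map_eq_zero_iff _ hinj]
    exact hc0
  have hgf : g.map (algebraMap (𝓞 L) L) = C (algebraMap (𝓞 L) L c) * F.map P := by
    rw [hcf]
    ext i
    rw [coeff_smul, coeff_C_mul, Algebra.smul_def]
  have hdegP : (F.map P).natDegree = F.natDegree :=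
    natDegree_map_of_leadingCoeff_ne_zero P hlc
  have hdeg : g.natDegree = F.natDegree := by
    rw [← natDegree_map_eq_of_injective hinj g, hgf, natDegree_C_mul hcK, hdegP]
  have hgs : (g.map (algebraMap (𝓞 L) L)).Separable := by
    rw [hgf]
    exact Separable.unit_mul (isUnit_C.2 hcK.isUnit) hsep
  have hgσ : ∃ σ : AlgebraicClosure L ≃ₐ[L] AlgebraicClosure L,
      ∀ θ : AlgebraicClosure L, aeval θ (g.map (algebraMap (𝓞 L) L)) = 0 → σ θ ≠ θ := by
    obtain ⟨σ, hσ⟩ := hσ
    refine ⟨σ, fun θ hθ => hσ θ ?_⟩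
    rw [hgf, map_mul, aeval_C] at hθ
    exact (mul_eq_zero.1 hθ).resolve_left ((_root_.map_ne_zero _).2 hcK)
  obtain ⟨N1, hN1, hemb⟩ := hemb
  obtain ⟨N2, hN2, hunit⟩ := AE.unit (P d) hd
  have hMO : (M : 𝓞 L) ≠ 0 := by exact_mod_cast hM0
  have hdL : (F.natDegree : 𝓞 L) ≠ 0 := by
    rw [Nat.cast_ne_zero]
    omega
  obtain ⟨T, hT, hTε⟩ := Pool.Agent.W723.SecC.partD1 L g
    ((c * N1 * N2 * (M : 𝓞 L)) * (F.natDegree : 𝓞 L))
    (mul_ne_zero (mul_ne_zero (mul_ne_zero (mul_ne_zero hc0 hN1) hN2) hMO) hdL) hgs hgσ ε hε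
  have hT1 : ∀ v ∈ T, c * N1 * N2 * (M : 𝓞 L) ∉ v.asIdeal := fun v hv h => (hT v hv).1
    (Ideal.mul_mem_right _ _ h)
  have hTc : ∀ v ∈ T, c ∉ v.asIdeal := fun v hv h => hT1 v hv
    (Ideal.mul_mem_right _ _ (Ideal.mul_mem_right _ _ (Ideal.mul_mem_right _ _ h)))
  have hTN1 : ∀ v ∈ T, N1 ∉ v.asIdeal := fun v hv h => hT1 v hv
    (Ideal.mul_mem_right _ _ (Ideal.mul_mem_right _ _ (Ideal.mul_mem_left _ _ h)))
  have hTN2 : ∀ v ∈ T, N2 ∉ v.asIdeal := fun v hv h => hT1 v hv
    (Ideal.mul_mem_right _ _ (Ideal.mul_mem_left _ _ h))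
  have hTM : ∀ v ∈ T, (M : 𝓞 L) ∉ v.asIdeal := fun v hv h => hT1 v hv
    (Ideal.mul_mem_left _ _ h)
  have hTℓ : ∀ v ∈ T, ∀ ℓ : ℕ, ℓ ∣ F.natDegree → (ℓ : 𝓞 L) ∉ v.asIdeal := by
    intro v hv ℓ hℓd h
    apply (hT v hv).1
    obtain ⟨n, hn⟩ := hℓd
    rw [hn, Nat.cast_mul]
    exact Ideal.mul_mem_left _ _ (Ideal.mul_mem_right _ _ h)
  have hPint : ∀ v ∈ T, ∀ r, v.valuation L (P r) ≤ 1 := fun v hv => (hemb v (hTN1 v hv)).1
  -- the twists with valuation one
  have hfine : ∀ v ∈ T, ∀ a : R, v.valuation L (P a) = exp (-1) →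
      ∀ ℓ : ℕ, ℓ.Prime → ℓ ∣ f.natDegree → FineP ℓ (algebraMap R k a) f := by
    intro v hv a ha ℓ hℓ hℓd
    have hfact : Fact ℓ.Prime := ⟨hℓ⟩
    rw [← hFf] at hℓd
    obtain ⟨-, -, hlcv, hsv, hrv⟩ := hT v hv
    obtain ⟨hint, ψ, hψ⟩ := hemb v (hTN1 v hv)
    have h1 := fineP_emb hFUN v hinjk P ψ hint hψ (hTℓ v hv ℓ hℓd) F c (hTc v hv) g hgf hdeg
      hlcv hsv hrv hℓd h3F (d * a) (by
        rw [map_mul, map_mul, ha]
        have h5 : v.valuation L (P d) = 1 := hunit v (hTN2 v hv)
        rw [h5, one_mul])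
    rw [map_mul, ← hdF] at h1
    exact h1.scale hdk
  set E : Set R := {a : R | ¬ ∀ ℓ : ℕ, ℓ.Prime → ℓ ∣ f.natDegree → FineP ℓ (algebraMap R k a) f} with hE
  set J := ∏ v ∈ T, v.asIdeal ^ 2 with hJ
  have hJ0 : J ≠ ⊥ := Finset.prod_ne_zero_iff.2 fun v _ => pow_ne_zero _ v.ne_bot
  have hfinJ : Finite (𝓞 L ⧸ J) := Ideal.finiteQuotientOfFreeOfNeBot _ hJ0
  -- the ideal
  let I : Ideal R :=
    { carrier := {r | ∀ v ∈ T, v.valuation L (P r) ≤ exp (-2)}
      add_mem' := by
        intro r s hr hs v hv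
        rw [map_add]
        exact (Valuation.map_add _ _ _).trans (max_le (hr v hv) (hs v hv))
      zero_mem' := by
        intro v hv
        rw [map_zero, map_zero]
        exact zero_le
      smul_mem' := by
        intro r s hs v hv
        rw [smul_eq_mul, map_mul, map_mul, mul_comm]
        exact mul_le_of_le_of_le_one (hs v hv) (hPint v hv r) }
  have hImem : ∀ r, r ∈ I ↔ ∀ v ∈ T, v.valuation L (P r) ≤ exp (-2) := fun r => Iff.rfl
  have hcl : ∀ r r' : R, ∀ y y' : 𝓞 L,
      (∀ v ∈ T, v.valuation L (P r - algebraMap (𝓞 L) L y) ≤ exp (-2)) →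
      (∀ v ∈ T, v.valuation L (P r' - algebraMap (𝓞 L) L y') ≤ exp (-2)) →
      (r - r' ∈ I ↔ y - y' ∈ J) := by
    intro r r' y y' h1 h2
    rw [hImem, hJ, mem_prod_iff]
    refine forall₂_congr fun v hv => ?_
    rw [← val_le_iff]
    constructor
    · intro h3
      have h5 : algebraMap (𝓞 L) L (y - y') = P (r - r') - ((P r - algebraMap (𝓞 L) L y) -
        (P r' - algebraMap (𝓞 L) L y')) := by
        rw [map_sub, map_sub]
        ring
      rw [h5]
      exact (Valuation.map_sub _ _ _).trans (max_le h3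
        ((Valuation.map_sub _ _ _).trans (max_le (h1 v hv) (h2 v hv))))
    · intro h3
      have h5 : P (r - r') = algebraMap (𝓞 L) L (y - y') + ((P r - algebraMap (𝓞 L) L y) -
        (P r' - algebraMap (𝓞 L) L y')) := by
        rw [map_sub, map_sub]
        ring
      rw [h5]
      exact (Valuation.map_add _ _ _).trans (max_le h3
        ((Valuation.map_sub _ _ _).trans (max_le (h1 v hv) (h2 v hv))))
  have hex : ∀ r : R, ∃ y : 𝓞 L,
      ∀ v ∈ T, v.valuation L (P r - algebraMap (𝓞 L) L y) ≤ exp (-2) := fun r =>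
    exists_int_near T (P r) fun v hv => hPint v hv r
  choose Y hY using hex
  have hsurj : ∀ y : 𝓞 L, ∃ r : R,
      ∀ v ∈ T, v.valuation L (P r - algebraMap (𝓞 L) L y) ≤ exp (-2) := by
    intro y
    obtain ⟨r0, hr0⟩ := hM y
    obtain ⟨j, hj⟩ := exists_pow_one T (M : 𝓞 L) hTM
    refine ⟨(M : R) ^ j * r0, fun v hv => ?_⟩
    have h1 : P ((M : R) ^ j * r0) - algebraMap (𝓞 L) L y =
        algebraMap (𝓞 L) L (((M : 𝓞 L) ^ (j + 1) - 1) * y) := by
      rw [map_mul, ← hr0, map_pow, map_intCast]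
      simp only [map_mul, map_sub, map_pow, map_intCast, map_one]
      ring
    rw [h1, val_le_iff]
    exact Ideal.mul_mem_right _ _ ((mem_prod_iff T _).1 hj v hv)
  let b : R ⧸ I → 𝓞 L ⧸ J := fun q => Ideal.Quotient.mk J (Y (Quotient.out q))
  have hout : ∀ q : R ⧸ I, Ideal.Quotient.mk I (Quotient.out q) = q := fun q =>
    Quotient.out_eq q
  have hbmk : ∀ (r : R) (y : 𝓞 L),
      (∀ v ∈ T, v.valuation L (P r - algebraMap (𝓞 L) L y) ≤ exp (-2)) →
      b (Ideal.Quotient.mk I r) = Ideal.Quotient.mk J y := by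
    intro r y hry
    change Ideal.Quotient.mk J _ = _
    rw [Ideal.Quotient.eq]
    refine (hcl _ r _ y (hY _) hry).1 ?_
    rw [← Ideal.Quotient.eq]
    exact hout _
  have hbinj : Function.Injective b := by
    intro q q' hqq
    have h1 := Ideal.Quotient.eq.1 hqq
    rw [← hcl (Quotient.out q) (Quotient.out q') _ _ (hY _) (hY _), ← Ideal.Quotient.eq, hout,
      hout] at h1
    exact h1
  have hbsurj : Function.Surjective b := by
    intro z
    obtain ⟨y, rfl⟩ := Ideal.Quotient.mk_surjective z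
    obtain ⟨r, hr⟩ := hsurj y
    exact ⟨Ideal.Quotient.mk I r, hbmk r y hr⟩
  have hfinI : Finite (R ⧸ I) := Finite.of_injective b hbinj
  have hcard : Nat.card (R ⧸ I) = Nat.card (𝓞 L ⧸ J) :=
    Nat.card_congr (Equiv.ofBijective b ⟨hbinj, hbsurj⟩)
  refine ⟨I, hfinI, ?_⟩
  have hD2 := Pool.Agent.W417.SecC.D2.partD2 L T
    {y : 𝓞 L | ∃ r ∈ E, ∀ v ∈ T, v.valuation L (P r - algebraMap (𝓞 L) L y) ≤ exp (-2)} (by
      rintro y ⟨r, hrE, hr⟩ v hv hyv
      by_contra hy2
      apply hrE
      apply hfine v hv r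
      have h1 : v.valuation L (algebraMap (𝓞 L) L y) = exp (-1) := by
        apply le_antisymm
        · rw [HeightOneSpectrum.valuation_of_algebraMap]
          exact (v.intValuation_le_pow_iff_mem y 1).2 (by rwa [pow_one])
        · by_contra h2
          rw [not_le] at h2
          exact hy2 ((val_le_iff v y).1 (lt_exp_neg_one _ h2))
      have h2 : P r = (P r - algebraMap (𝓞 L) L y) + algebraMap (𝓞 L) L y := by ring
      rw [h2, Valuation.map_add_eq_of_lt_right _ (by
        rw [h1]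
        refine (hr v hv).trans_lt ?_
        rw [exp_lt_exp]
        omega), h1])
  have hle : Set.ncard ((Ideal.Quotient.mk I) '' E) ≤ Set.ncard ((Ideal.Quotient.mk J) ''
      {y : 𝓞 L | ∃ r ∈ E, ∀ v ∈ T, v.valuation L (P r - algebraMap (𝓞 L) L y) ≤ exp (-2)}) := by
    refine Set.ncard_le_ncard_of_injOn b ?_ hbinj.injOn (Set.toFinite _)
    rintro _ ⟨r, hr, rfl⟩
    exact ⟨Y r, ⟨r, hr, hY r⟩, (hbmk r _ (hY r)).symm⟩
  rw [hcard]
  calc (Set.ncard ((Ideal.Quotient.mk I) '' E) : ℝ) ≤ _ := by exact_mod_cast hle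
    _ ≤ _ := hD2
    _ ≤ ε * Nat.card (𝓞 L ⧸ J) := mul_le_mul_of_nonneg_right hTε.le (Nat.cast_nonneg _)

theorem density_auxP (hFUN : S_FUN) {R k : Type} [CommRing R] [IsDomain R] [Field k] [CharZero k]
    [Algebra R k] [IsFractionRing R k] (G : Finset R) (hG : Algebra.adjoin ℤ (G : Set R) = ⊤)
    {m : ℕ} {Q : Type} [Field Q] [Algebra (MvPolynomial (Fin m) ℚ) Q]
    [IsFractionRing (MvPolynomial (Fin m) ℚ) Q] [Algebra Q k]
    [Algebra (MvPolynomial (Fin m) ℚ) k] [IsScalarTower (MvPolynomial (Fin m) ℚ) Q k]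
    [Algebra.IsAlgebraic Q k] [Algebra.EssFiniteType ℤ k] (f : k[X]) (hf : f.Separable)
    (h3 : 3 ≤ f.natDegree)
    (hσ : ∃ σ : AlgebraicClosure k ≃ₐ[k] AlgebraicClosure k,
      ∀ θ : AlgebraicClosure k, aeval θ f = 0 → σ θ ≠ θ) (ε : ℝ) (hε : 0 < ε) :
    ∃ I : Ideal R, Finite (R ⧸ I) ∧
      (Set.ncard ((Ideal.Quotient.mk I) ''
        {a : R | ¬ ∀ ℓ : ℕ, ℓ.Prime → ℓ ∣ f.natDegree → FineP ℓ (algebraMap R k a) f}) : ℝ) ≤ ε * Nat.card (R ⧸ I) := by
  classical
  have e4 : Algebra.EssFiniteType Q k := Algebra.EssFiniteType.of_comp ℤ Q k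
  have hfin : FiniteDimensional Q k := Algebra.finite_of_essFiniteType_of_isAlgebraic
  have hinjk : Function.Injective (algebraMap R k) := IsFractionRing.injective R k
  have hczQ : CharZero Q := charZero_of_injective_algebraMap
    (IsFractionRing.injective (MvPolynomial (Fin m) ℚ) Q)
  obtain ⟨d, hd, hcf⟩ := IsLocalization.integerNormalization_spec (nonZeroDivisors R) f
  set F := IsLocalization.integerNormalization (nonZeroDivisors R) f with hF
  have hd0 : d ≠ 0 := nonZeroDivisors.ne_zero hd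
  have hdk : algebraMap R k d ≠ 0 := by
    rw [Ne, map_eq_zero_iff _ hinjk]
    exact hd0
  have hdF : C (algebraMap R k d) * f = F.map (algebraMap R k) := by
    rw [hcf]
    ext i
    rw [coeff_smul, coeff_C_mul, Algebra.smul_def]
  have hdeg : F.natDegree = f.natDegree := by
    rw [← natDegree_map_eq_of_injective hinjk F, ← hdF, natDegree_C_mul hdk]
  have hFs : (F.map (algebraMap R k)).Separable := by
    rw [← hdF]
    exact Separable.unit_mul (isUnit_C.2 hdk.isUnit) hf
  have hF0 : F ≠ 0 := by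
    rintro h0
    rw [h0, Polynomial.map_zero] at hFs
    exact hFs.ne_zero rfl
  obtain ⟨σ, hσ⟩ := hσ
  have hσF : ∀ θ : AlgebraicClosure k, aeval θ (F.map (algebraMap R k)) = 0 → σ θ ≠ θ := by
    intro θ hθ
    rw [← hdF, map_mul, aeval_C] at hθ
    exact hσ θ ((mul_eq_zero.1 hθ).resolve_left ((_root_.map_ne_zero _).2 hdk))
  obtain ⟨α, hgen, hα⟩ := Pool.Agent.H298R2.Kuyk.exists_prim (MvPolynomial (Fin m) ℚ) Q k
  have hDNex : ∀ r : R, ∃ (D : MvPolynomial (Fin m) ℚ) (N : (MvPolynomial (Fin m) ℚ)[X]),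
      D ≠ 0 ∧ algebraMap _ k D * algebraMap R k r = aeval α N := by
    intro r
    obtain ⟨p, -, hp⟩ := H33.V4.exists_rep (Q := Q) α hgen (algebraMap R k r)
    obtain ⟨D, hD, hDp⟩ := IsLocalization.integerNormalization_spec
      (nonZeroDivisors (MvPolynomial (Fin m) ℚ)) p
    refine ⟨D, IsLocalization.integerNormalization (nonZeroDivisors (MvPolynomial (Fin m) ℚ)) p,
      nonZeroDivisors.ne_zero hD, ?_⟩
    rw [← aeval_map_algebraMap Q, hDp, Algebra.smul_def, map_mul, hp]
    congr 1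
    rw [IsScalarTower.algebraMap_apply (MvPolynomial (Fin m) ℚ) Q k,
      IsScalarTower.algebraMap_apply (MvPolynomial (Fin m) ℚ) Q Q[X]]
    simp
  choose D N hD hDN using hDNex
  obtain ⟨r0, s0, hs0, hα0⟩ := IsFractionRing.div_surjective (A := R) α
  have hs00 : s0 ≠ 0 := nonZeroDivisors.ne_zero hs0
  have hs0k : algebraMap R k s0 ≠ 0 := by
    rw [Ne, map_eq_zero_iff _ hinjk]
    exact hs00
  have hα1 : algebraMap R k s0 * α = algebraMap R k r0 := by
    rw [← hα0]
    field_simp
  obtain ⟨L, _, _, P, c, β, hβtop, hβ, hβ', hDP, hPα, hU, hsepP, hσP⟩ :=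
    exists_spec (Q := Q) hinjk α hα hgen G hG D N (fun r _ => hDN r) (fun r _ => hD r)
      {d, F.leadingCoeff, s0} (by
        intro u hu
        simp only [Finset.mem_insert, Finset.mem_singleton] at hu
        rcases hu with rfl | rfl | rfl
        · exact hd0
        · exact leadingCoeff_ne_zero.2 hF0
        · exact hs00) F hFs σ hσF
  have hemb := exists_emb (Q := Q) α hα hgen P G hG D N (fun r _ => hDN r) c β hβ hβ' hDP
  have hM := exists_mult P β hβtop r0 s0 (hU s0 (by simp)) (hPα r0 s0 hα1)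
  exact density_of_pointP hFUN hinjk f d F hdF hdk hdeg (by rwa [hdeg]) P (hU d (by simp))
    (hU _ (by simp)) hsepP hσP hemb hM ε hε

theorem density_fgP {R k : Type} [CommRing R] [IsDomain R] [CharZero R] [Algebra.FiniteType ℤ R]
    [Field k] [Algebra R k] [IsFractionRing R k] (f : k[X]) (hf : f.Separable)
    (h3 : 3 ≤ f.natDegree)
    (hσ : ∃ σ : AlgebraicClosure k ≃ₐ[k] AlgebraicClosure k,
      ∀ θ : AlgebraicClosure k, aeval θ f = 0 → σ θ ≠ θ) (ε : ℝ) (hε : 0 < ε) :
    ∃ I : Ideal R, Finite (R ⧸ I) ∧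
      (Set.ncard ((Ideal.Quotient.mk I) ''
        {a : R | ¬ ∀ ℓ : ℕ, ℓ.Prime → ℓ ∣ f.natDegree → FineP ℓ (algebraMap R k a) f}) : ℝ) ≤ ε * Nat.card (R ⧸ I) := by
  classical
  have hcz : CharZero k := charZero_of_injective_algebraMap (IsFractionRing.injective R k)
  obtain ⟨G, hG⟩ := (inferInstance : Algebra.FiniteType ℤ R).out
  have e1 : Algebra.EssFiniteType R k := Algebra.EssFiniteType.of_isLocalization k (nonZeroDivisors R)
  have e2 : Algebra.EssFiniteType ℤ k := Algebra.EssFiniteType.comp ℤ R k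
  have e3 : Algebra.EssFiniteType ℚ k := Algebra.EssFiniteType.of_comp ℤ ℚ k
  obtain ⟨s, hs⟩ := IntermediateField.fg_top ℚ k
  have halg0 : Algebra.IsAlgebraic (Algebra.adjoin ℚ (s : Set k)) k := by
    rw [← IntermediateField.isAlgebraic_adjoin_iff_top, hs, Algebra.isAlgebraic_iff_isIntegral]
    exact Algebra.isIntegral_of_surjective IntermediateField.topEquiv.surjective
  obtain ⟨t, hts, ht⟩ := exists_isTranscendenceBasis_subset (R := ℚ) (s : Set k)
  lift t to Finset k using s.finite_toSet.subset hts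
  let m := t.card
  let e : Fin m ≃ t := t.equivFin.symm
  let x : Fin m → k := fun i => (e i : k)
  have hx : IsTranscendenceBasis ℚ x := (isTranscendenceBasis_equiv e).2 ht
  let _ : Algebra (MvPolynomial (Fin m) ℚ) k := (MvPolynomial.aeval x).toRingHom.toAlgebra
  have hinj : Function.Injective (algebraMap (MvPolynomial (Fin m) ℚ) k) := hx.1
  let _ : Algebra (FractionRing (MvPolynomial (Fin m) ℚ)) k :=
    (IsFractionRing.lift (K := FractionRing (MvPolynomial (Fin m) ℚ)) hinj).toAlgebra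
  have htow : IsScalarTower (MvPolynomial (Fin m) ℚ) (FractionRing (MvPolynomial (Fin m) ℚ)) k :=
    IsScalarTower.of_algebraMap_eq fun p => (IsFractionRing.lift_algebraMap hinj p).symm
  have hta : Algebra.IsAlgebraic (FractionRing (MvPolynomial (Fin m) ℚ)) k := by
    refine ⟨fun y => ?_⟩
    obtain ⟨p, hp, hpy⟩ := hx.isAlgebraic.isAlgebraic y
    have h1 : IsAlgebraic (MvPolynomial (Fin m) ℚ) y := by
      refine ⟨p.map hx.1.aevalEquiv.symm.toRingEquiv.toRingHom, ?_, ?_⟩
      · exact (Polynomial.map_ne_zero_iff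
          hx.1.aevalEquiv.symm.toRingEquiv.injective).2 hp
      · rw [aeval_def, eval₂_map]
        rw [aeval_def] at hpy
        have h2 : (algebraMap (MvPolynomial (Fin m) ℚ) k).comp
            hx.1.aevalEquiv.symm.toRingEquiv.toRingHom =
            algebraMap (Algebra.adjoin ℚ (Set.range x)) k := by
          ext1 z
          obtain ⟨p, rfl⟩ := hx.1.aevalEquiv.surjective z
          rw [hx.1.algebraMap_aevalEquiv]
          change MvPolynomial.aeval x (hx.1.aevalEquiv.symm (hx.1.aevalEquiv p)) = _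
          rw [AlgEquiv.symm_apply_apply]
        rw [h2]
        exact hpy
    exact h1.extendScalars (IsFractionRing.injective _ _)
  exact density_auxP (Pool.Agent.Y674.PS.funct Pool.Agent.Y157.PS.a_inrt) (m := m)
    (Q := FractionRing (MvPolynomial (Fin m) ℚ)) G hG f hf h3 hσ ε hε

end Pool.Agent.Y141.PS
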